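import Pool.Agent.R602.UU.Final

/-!
# The least cardinal without a uniform ultrafilter can be `ℵ_ω`

The transitive models `M` of ZF (`IsZF`) are defined in `Pool.Agent.W868.Defs`, the infinite
cardinals of `M` (`InfCard`), regular and successor cardinals (`Regular`, `IsSucc`), the alephs
(`IsAleph`) and uniform ultrafilters (`UniUF`) in `M` are defined in `Pool.Agent.R602.UU.Stat`.

The model is a symmetric submodel of a generic extension, where for each `m` a subset of `ℶ_ω` is
added with conditions of size at most `ℶ_m`. The supports are the finite sets of indices `m`, and the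
automorphisms exchange the values of the conditions.
-/

namespace Pool.Agent.Results.MP_598ba0_lc.AlephOmegaFirstFailure

open Pool.Agent.W868 Pool.Agent.R602.UU

/-- There is a countable transitive model `M` of ZF in which all successor cardinals are regular and,
for a singular cardinal `l` that is `ℵ_ω` in `M`, all infinite cardinals below `l` carry a uniform
ultrafilter, but `l` does not. -/
theorem result : ∃ M : Set ZFSet.{0}, M.Countable ∧ IsZF M ∧
    (∀ μ κ, IsSucc M μ κ → Regular M κ) ∧
      ∃ l, InfCard M l ∧ ¬ Regular M l ∧ (∀ n, ∃ κ ∈ l, IsAleph M n κ) ∧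
        (∀ α ∈ l, ∃ n κ, IsAleph M n κ ∧ α ∈ κ) ∧
        (∀ κ ∈ l, InfCard M κ → ∃ D, UniUF M κ D) ∧ ¬ ∃ D, UniUF M l D :=
  final1

end Pool.Agent.Results.MP_598ba0_lc.AlephOmegaFirstFailure
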